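import Pool.Agent.MWN.StmtsH

/-!
Clause c3c of base (h).
-/

set_option autoImplicit false

namespace Pool.Agent.MWN.H21

open Pool.Agent.Helper14_MV Pool.Agent.Helper2_MV Pool.Agent.MVO Pool.Agent.MWL Pool.Agent.MWS
  Pool.Agent.MWF

theorem lr_of {β : FIC} (H : HB β) : LR 1 (FC.ofFIC β) where
  pos := le_rfl
  per := H.ap
  rr := H.rr

/-- three blocks -/
def b3 (x y z : List ℕ) : ℕ → List ℕ :=
  fun j => if j = 0 then x else if j = 1 then y else if j = 2 then z else []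

theorem sub' {β : FIC} (g : ℕ → List ℕ) {l l' m m' : List ℕ} (h : RR β l l')
    (e : l.flatMap g = m) (e' : l'.flatMap g = m') : RR β m m' := by
  rw [← e, ← e']
  exact h.sub g

theorem ctx {β : FIC} (p q : List ℕ) {l l' m m' : List ℕ} (h : RR β l l')
    (e : p ++ l ++ q = m) (e' : p ++ l' ++ q = m') : RR β m m' := by
  rw [← e, ← e']
  exact ((RR.refl p).append h).append (RR.refl q)

theorem two_b3 {x y z : List ℕ} (h : ∀ c ∈ x ++ (y ++ z), c = 0 ∨ c = 1) : Two01 2 (b3 x y z) := by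
  intro j hj c hc
  have h1 : j = 0 ∨ j = 1 ∨ j = 2 := by omega
  rcases h1 with rfl | rfl | rfl
  · exact h c (List.mem_append_left _ hc)
  · exact h c (List.mem_append_right _ (List.mem_append_left _ hc))
  · exact h c (List.mem_append_right _ (List.mem_append_right _ hc))

theorem ok_b3 {x y z : List ℕ} (h : ∀ c ∈ x ++ (y ++ z), c = 0 ∨ c = 1)
    (h0 : 2 ≤ deg 2 (ty (b3 x y z) 0)) (h1 : 2 ≤ deg 2 (ty (b3 x y z) 1)) :
    OkB 2 (b3 x y z) := by
  refine ⟨fun j hj c hc => ?_, fun j hj c hc => ?_⟩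
  · have := two_b3 h j hj c hc
    unfold NS
    omega
  · rcases two_b3 h j hj c hc with rfl | rfl
    · exact h0
    · exact h1

theorem sh_b3 {a b : ℕ → ℕ} (h : ∀ j < 3, a j = b j ∨ (2 ≤ a j ∧ 2 ≤ b j)) : Sh 2 a b :=
  fun j hj => h j (by omega)

theorem e220 {β : FIC} (hE : Oh β Bit.E) {a : ℕ → ℕ} (h : mw 2 a = [0, 0, 2, 0, 0, 3])
    (h' : mw 2 (ad 1 a 2) = [0, 0, 2, 0, 0, 3, 0, 0]) : Ab 1 (FC.ofFIC β) 2 a 2 := by
  have h1 : RR β [0, 0, 2] [0, 0, 2, 0, 0] := hE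
  have h2 : RR β [0, 0, 2, 0, 0, 3] [0, 0, 2, 0, 0, 3, 0, 0] :=
    ctx [0, 0, 2] [] (sub' (fun c => if c = 2 then [3] else [c]) h1 rfl rfl) rfl rfl
  have h3 : RR β (mw 2 a) (mw 2 (ad 1 a 2)) := by
    rw [h, h']
    exact h2
  exact h3

theorem n3c (hp : NphStmt) (hx : NcxStmt) (ho : NcoStmt) (ha : MWL.ArrStmt) : N3cStmt := by
  intro β H hi hm hD st
  by_contra h3
  have hE : ¬ Oh β Bit.E := by
    intro hE
    apply h3
    cases st
    · exact ho β H hi 2 (b3 [0, 0, 1] [0, 0] [1]) (b3 [0, 1, 0] [0, 0] [1]) 0 1 2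
        (ok_b3 (by decide) (by decide) (by decide)) (ok_b3 (by decide) (by decide) (by decide))
        (two_b3 (by decide)) (two_b3 (by decide)) (sh_b3 (by decide)) (sh_b3 (by decide))
        (Or.inl ⟨rfl, rfl⟩) le_rfl (by decide) (by decide) (by decide)
        (e220 hE (by decide) (by decide))
    · exact ho β H hi 2 (b3 [1, 0, 0] [0, 0] [1]) (b3 [0, 1, 0] [0, 0] [1]) 0 1 2
        (ok_b3 (by decide) (by decide) (by decide)) (ok_b3 (by decide) (by decide) (by decide))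
        (two_b3 (by decide)) (two_b3 (by decide)) (sh_b3 (by decide)) (sh_b3 (by decide))
        (Or.inl ⟨rfl, rfl⟩) le_rfl (by decide) (by decide) (by decide)
        (e220 hE (by decide) (by decide))
  have hG : ¬ Oh β Bit.G := fun h => hD ((ha 1 (FC.ofFIC β) (lr_of H)).2.2.1 h)
  have hA1 : Clo β 2 (cd3 Cd.one Cd.pos Cd.z) := hx β H hi [8, 3, 0] 2 _
    (by
      intro x hx
      simp only [List.mem_cons, List.not_mem_nil, or_false] at hx
      tauto) (by decide +kernel)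
  have hB1 : Clo β 2 (cd3 Cd.one Cd.z Cd.one) := hx β H hi [8] 2 _
    (by
      intro x hx
      simp only [List.mem_cons, List.not_mem_nil, or_false] at hx
      tauto) (by decide +kernel)
  have hA2 : Clo β 2 (cd3 Cd.pos Cd.pos Cd.z) := hx β H hi [8, 3, 2, 0] 2 _
    (by
      intro x hx
      simp only [List.mem_cons, List.not_mem_nil, or_false] at hx
      tauto) (by decide +kernel)
  rcases hp β H hi hm 2 0 (cd3 Cd.one Cd.pos Cd.z) (cd3 Cd.one Cd.z Cd.one)
    (cd3 Cd.pos Cd.pos Cd.z) (cd3 Cd.one Cd.z Cd.one) st (v3 2 2 0)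
    (v3 1 2 0) (v3 1 0 1) (v3 1 0 1) (by decide +kernel) (by decide) (by decide)
    (by decide) (by decide) hA1 hB1 hA2 hB1 with h | h
  · apply h3
    cases st
    · have h1 : RR β [0, 1, 2, 0, 0, 3, 1] [1, 0, 2, 0, 0, 3, 1] := h
      have h2 : RR β [0, 0, 1, 2, 0, 0, 3, 1] [0, 1, 0, 2, 0, 0, 3, 1] :=
        ctx [0] [] h1 rfl rfl
      exact h2
    · have h1 : RR β [1, 0, 2, 0, 0, 3, 1] [0, 1, 2, 0, 0, 3, 1] := h
      have h2 : RR β [1, 0, 0, 2, 0, 0, 3, 1] [0, 1, 0, 2, 0, 0, 3, 1] :=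
        sub' (fun c => if c = 2 then [0, 2] else [c]) h1 rfl rfl
      exact h2
  · apply h3
    cases st
    · exact h
    · exact h

end Pool.Agent.MWN.H21
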